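import Pool.Agent.helper94.FIP.Spec
import Pool.Agent.helper78.GD.G2
import Pool.Agent.helper72.GD.G1

set_option autoImplicit false

namespace Pool.Agent.FIP

open Finset

theorem M8 : M8_stmt := by
  obtain ⟨C, hC, h⟩ := GD.G2_main GD.G1_thm
  have hl2 : 0 < Real.log 2 := Real.log_pos (by norm_num)
  refine ⟨C / Real.log 2, by positivity, fun v hv => ?_⟩
  have h1 := h 2 v le_rfl (by exact_mod_cast hv)
  push_cast at h1
  have h2 := (abs_le.1 h1).1
  have h3 : Real.log (Real.log 2) ≤ 0 := by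
    apply Real.log_nonpos hl2.le
    have := Real.log_two_lt_d9
    linarith
  have h4 : ∑ l ∈ GD.Qs 2 (v : ℝ), 2 / (l : ℝ) ≤
      ∑ l ∈ (Icc 1 v).filter (fun l => l.Prime ∧ (l % 8 = 1 ∨ l % 8 = 7)), 2 / (l : ℝ) := by
    apply sum_le_sum_of_subset_of_nonneg
    · intro l hl
      unfold GD.Qs at hl
      rw [Nat.floor_natCast] at hl
      obtain ⟨h5, h6, -, h7⟩ := mem_filter.1 hl
      exact mem_filter.2 ⟨h5, h6, h7⟩
    · intro l _ _
      positivity
  linarith

end Pool.Agent.FIP
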